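import Mathlib
import Pool.Agent.Lib.helper28.ZakB

open MeasureTheory Set Filter Topology

namespace Pool.Agent.Results.MP_bef260_an.Yes

/-- The Hermite function of order `n`. -/
noncomputable def herm (n : ℕ) (t : ℝ) : ℝ :=
  (-1) ^ n * ((2:ℝ) ^ (1 / 4 : ℝ) / √(n.factorial * (2 * Real.pi) ^ n * 2 ^ n)) *
    Real.exp (Real.pi * t ^ 2) * iteratedDeriv n (fun s : ℝ => Real.exp (-2 * Real.pi * s ^ 2)) t

/-- The sum of the squared Gabor coefficients. -/
noncomputable def coef (g : ℝ → ℝ) (Γ : Set (ℝ × ℝ)) (f : ℝ → ℂ) : ENNReal :=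
  ∑' γ : Γ, ENNReal.ofReal (‖∫ t : ℝ, f t * (starRingEnd ℂ)
    (Complex.exp (2 * Real.pi * Complex.I * γ.1.2 * t) * (g (t - γ.1.1) : ℂ))‖ ^ 2)

/-- The Gabor system is a frame. -/
def IsFrame (g : ℝ → ℝ) (Γ : Set (ℝ × ℝ)) : Prop :=
  ∃ A B : ℝ, 0 < A ∧ A ≤ B ∧ ∀ f : ℝ → ℂ, MemLp f 2 volume →
    ENNReal.ofReal (A * ∫ t, ‖f t‖ ^ 2) ≤ coef g Γ f ∧
      coef g Γ f ≤ ENNReal.ofReal (B * ∫ t, ‖f t‖ ^ 2)

/-- The union of the translates of the lattice `a ℤ × a⁻¹ ℤ` by the points of `Z`. -/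
def conf (a : ℝ) (Z : Finset (ℝ × ℝ)) : Set (ℝ × ℝ) :=
  {γ | ∃ z ∈ Z, ∃ k m : ℤ, γ = (z.1 + k * a, z.2 + m / a)}

lemma poly (n : ℕ) : ∃ P : Polynomial ℝ,
    iteratedDeriv n (fun s : ℝ => Real.exp (-2 * Real.pi * s ^ 2)) =
      fun t => P.eval t * Real.exp (-2 * Real.pi * t ^ 2) := by
  induction n with
  | zero => exact ⟨1, by simp⟩
  | succ n ih =>
    obtain ⟨P, hP⟩ := ih
    refine ⟨P.derivative + P * (Polynomial.C (-4 * Real.pi) * Polynomial.X), funext fun t => ?_⟩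
    rw [iteratedDeriv_succ, hP]
    have h := (P.hasDerivAt t).fun_mul
      ((((hasDerivAt_id t).fun_pow 2).const_mul (-2 * Real.pi)).exp)
    simp only [id] at h
    rw [h.deriv]
    simp; ring

lemma decay (P : Polynomial ℝ) {c : ℝ} (hc : 0 < c) :
    ∃ D, 0 ≤ D ∧ ∀ s : ℝ, |P.eval s * Real.exp (-c * s ^ 2)| ≤ D / (1 + |s|) ^ 3 := by
  induction P using Polynomial.induction_on' with
  | add p q hp hq =>
    obtain ⟨D1, h1, h1'⟩ := hp
    obtain ⟨D2, h2, h2'⟩ := hq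
    refine ⟨D1 + D2, by positivity, fun s => ?_⟩
    rw [Polynomial.eval_add, add_mul, add_div]
    exact (abs_add_le _ _).trans (add_le_add (h1' s) (h2' s))
  | monomial k r =>
    refine ⟨|r| * Real.exp ((k + 3) ^ 2 / (4 * c)), by positivity, fun s => ?_⟩
    rw [Polynomial.eval_monomial, abs_mul, abs_mul, abs_pow, abs_of_pos (Real.exp_pos _),
      le_div_iff₀ (by positivity), mul_assoc, mul_assoc]
    refine mul_le_mul_of_nonneg_left ?_ (abs_nonneg r)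
    have h1 : |s| ^ k * (1 + |s|) ^ 3 ≤ Real.exp ((k + 3 : ℕ) * |s|) := by
      rw [Real.exp_nat_mul, pow_add]
      have := Real.add_one_le_exp |s|
      gcongr <;> linarith
    have h2 : ((k + 3 : ℕ) : ℝ) * |s| + -c * s ^ 2 ≤ (k + 3) ^ 2 / (4 * c) := by
      rw [le_div_iff₀ (by positivity), ← sq_abs s]; push_cast
      nlinarith [sq_nonneg ((k + 3 : ℝ) - 2 * c * |s|)]
    calc |s| ^ k * (Real.exp (-c * s ^ 2) * (1 + |s|) ^ 3)
        = |s| ^ k * (1 + |s|) ^ 3 * Real.exp (-c * s ^ 2) := by ring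
      _ ≤ Real.exp ((k + 3 : ℕ) * |s|) * Real.exp (-c * s ^ 2) := by gcongr
      _ ≤ _ := by rw [← Real.exp_add]; exact Real.exp_le_exp.2 h2

lemma lim0 {ψ : ℝ → ℝ} {D : ℝ} (h : ∀ s, |ψ s| ≤ D / (1 + |s|) ^ 3) {F : Filter ℝ}
    (hF : Tendsto (fun s : ℝ => |s|) F atTop) : Tendsto ψ F (𝓝 0) :=
  squeeze_zero_norm h (tendsto_const_nhds.div_atTop
    ((tendsto_pow_atTop three_ne_zero).comp (tendsto_atTop_add_const_left _ _ hF)))

lemma alt (n : ℕ) :
    H28Zak.Alt (iteratedDeriv n fun s : ℝ => Real.exp (-2 * Real.pi * s ^ 2)) n := by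
  induction n with
  | zero =>
    refine ⟨fun i => i, Nat.strictMono_cast, fun i hi => ?_⟩
    obtain rfl : i = 0 := by omega
    simp
  | succ n ih =>
    obtain ⟨P, hP⟩ := poly n
    obtain ⟨D, -, hD⟩ := decay P (c := 2 * Real.pi) (by positivity)
    simp only [← neg_mul] at hD
    rw [iteratedDeriv_succ]
    rw [hP] at ih ⊢
    exact H28Zak.alt_step (by fun_prop) (lim0 hD tendsto_abs_atBot_atTop)
      (lim0 hD tendsto_abs_atTop_atTop) ih

lemma int_zero {k : ℤ} (h : |(k:ℝ)| < 1) : k = 0 := by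
  have : |k| < 1 := by exact_mod_cast h
  exact Int.abs_lt_one_iff.1 this

theorem result (n : ℕ) (hn : 1 ≤ n) :
    ∃ a : ℝ, 0 < a ∧ ∃ Z : Finset (ℝ × ℝ), Z.card = 2 * n + 1 ∧ n + 1 < Z.card ∧
      (∀ z ∈ Z, ∀ z' ∈ Z, ∀ k m : ℤ, z = (z'.1 + k * a, z'.2 + m / a) → z = z') ∧
      (∃ δ : ℝ, 0 < δ ∧ ∀ γ ∈ conf a Z, ∀ γ' ∈ conf a Z, γ ≠ γ' → δ ≤ dist γ γ') ∧
      ¬ IsFrame (herm n) (conf a Z) := by
  set c : ℝ := (-1) ^ n * ((2:ℝ) ^ (1 / 4 : ℝ) / √(n.factorial * (2 * Real.pi) ^ n * 2 ^ n))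
    with hc
  have hc0 : c ≠ 0 := by rw [hc]; positivity
  obtain ⟨P, hP⟩ := poly n
  have e : herm n = fun t => (Polynomial.C c * P).eval t * Real.exp (-Real.pi * t ^ 2) := by
    ext t
    rw [herm, hP, ← hc, Polynomial.eval_mul, Polynomial.eval_C,
      show -Real.pi * t ^ 2 = Real.pi * t ^ 2 + -2 * Real.pi * t ^ 2 by ring, Real.exp_add]
    ring
  have hh : Continuous (herm n) := by rw [e]; fun_prop
  obtain ⟨D, hD, hd⟩ := decay (Polynomial.C c * P) Real.pi_pos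
  have hd' : ∀ s, |herm n s| ≤ D / (1 + |s|) ^ 3 := by rw [e]; exact hd
  have hpar : ∀ s, herm n (-s) = (-1) ^ n * herm n s := fun s => by
    have := iteratedDeriv_comp_neg n (fun s : ℝ => Real.exp (-2 * Real.pi * s ^ 2)) (-s)
    simp only [neg_sq, neg_neg, smul_eq_mul] at this
    rw [herm, herm, this, neg_sq]; ring
  obtain ⟨t, ht, hs⟩ := alt n
  have h3 : ∀ i < n, herm n (t i) * herm n (t (i + 1)) < 0 := fun i hi => by
    have a1 := mul_pos (hs i hi.le) (hs (i + 1) hi)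
    have a2 : ((-1:ℝ) ^ i) * (-1) ^ i = 1 := by rw [← mul_pow]; simp
    rw [herm, herm, ← hc]
    have a3 : 0 < c ^ 2 * (Real.exp (Real.pi * t i ^ 2) * Real.exp (Real.pi * t (i + 1) ^ 2)) := by
      positivity
    generalize iteratedDeriv n (fun s : ℝ => Real.exp (-2 * Real.pi * s ^ 2)) = ψ at *
    have a4 : ψ (t i) * ψ (t (i + 1)) < 0 := by
      rw [pow_succ] at a1
      have : (-1) ^ i * ψ (t i) * ((-1) ^ i * -1 * ψ (t (i + 1))) =
        -((-1) ^ i * (-1) ^ i) * (ψ (t i) * ψ (t (i + 1))) := by ring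
      rw [this, a2] at a1; linarith
    nlinarith [mul_pos a3 (neg_pos.2 a4)]
  have h4 : ∀ i ≤ n, 0 < |herm n (t i)| := fun i hi => by
    have a1 := hs i hi
    rw [abs_pos, herm, ← hc]
    refine mul_ne_zero (mul_ne_zero hc0 (Real.exp_pos _).ne') fun h => ?_
    rw [h] at a1; simp at a1
  have hev : ∀ᶠ a : ℝ in atTop, ∀ i ∈ Finset.range (n + 1), |t i| ≤ a / 4 ∧
      8 * D / a * ∑' l : ℤ, 1 / (l:ℝ) ^ 2 < |herm n (t i)| := by
    refine (eventually_all_finset _).2 fun i hi => Eventually.and ?_ ?_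
    · filter_upwards [eventually_ge_atTop (4 * |t i|)] with a ha; linarith
    · have : Tendsto (fun a : ℝ => 8 * D / a * ∑' l : ℤ, 1 / (l:ℝ) ^ 2) atTop (𝓝 0) := by
        have := (tendsto_const_nhds (x := 8 * D).div_atTop tendsto_id).mul_const
          (∑' l : ℤ, 1 / (l:ℝ) ^ 2)
        rwa [zero_mul] at this
      exact this.eventually (gt_mem_nhds (h4 i (by simpa [Nat.lt_succ_iff] using hi)))
  obtain ⟨a, ha', ha⟩ := (hev.and (eventually_ge_atTop 1)).exists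
  have ha0 : 0 < a := by linarith
  have ha1 := fun i (hi : i ≤ n) => ha' i (Finset.mem_range.2 (Nat.lt_succ_of_le hi))
  have p0 : ∀ x : ℝ, H28Zak.ph (0 * a * x) = 1 := fun x => by simpa using H28Zak.ph_int 0
  have p1 : ∀ l : ℤ, H28Zak.ph (1 / (2 * a) * a * l) = (-1) ^ l := fun l => by
    rw [← H28Zak.ph_half]; congr 1; field_simp
  obtain ⟨S0, c0, z0⟩ := H28Zak.zeros hh hD hd' ha (ω := 0) (fun l => by rw [p0]; simp) ht
    (fun i hi => (ha1 i hi).1) (fun i hi => (ha1 i hi).2) h3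
  obtain ⟨S1, c1, z1⟩ := H28Zak.zeros hh hD hd' ha (ω := 1 / (2 * a)) (fun l => by
      rw [p1]; rcases Int.even_or_odd l with h | h <;> simp [h.neg_one_zpow]) ht
    (fun i hi => (ha1 i hi).1) (fun i hi => (ha1 i hi).2) h3
  obtain ⟨ω, hω, z2⟩ : ∃ ω : ℝ, (ω = 0 ∨ ω = 1 / (2 * a)) ∧
      H28Zak.zak (herm n) a ω (a / 2) = 0 := by
    rcases Nat.even_or_odd n with h | h
    · refine ⟨_, Or.inr rfl, H28Zak.zero_half _ hpar fun l => ?_⟩
      rw [p1, p1, h.neg_one_pow, zpow_sub₀ (by norm_num)]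
      rcases Int.even_or_odd l with h | h <;> simp [h.neg_one_zpow]
    · refine ⟨0, Or.inl rfl, H28Zak.zero_half _ hpar fun l => ?_⟩
      rw [p0, p0, h.neg_one_pow]; simp
  have hinj : ∀ w : ℝ, Function.Injective fun s : ℝ => (-s, w) := fun w x y h => by simpa using h
  have hq : 0 < 1 / (2 * a) := by positivity
  set Z : Finset (ℝ × ℝ) := insert (-(a / 2), ω)
    (S0.image (fun s => (-s, (0:ℝ))) ∪ S1.image (fun s => (-s, 1 / (2 * a)))) with hZ
  have hcard : Z.card = 2 * n + 1 := by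
    rw [hZ, Finset.card_insert_of_notMem, Finset.card_union_of_disjoint,
      Finset.card_image_of_injective _ (hinj _), Finset.card_image_of_injective _ (hinj _), c0, c1]
    · ring
    · rw [Finset.disjoint_left]
      intro p h0 h1
      obtain ⟨x, -, rfl⟩ := Finset.mem_image.1 h0
      obtain ⟨y, -, hy⟩ := Finset.mem_image.1 h1
      exact hq.ne' (congrArg Prod.snd hy)
    · intro h
      rcases Finset.mem_union.1 h with h | h <;> obtain ⟨x, hx, hy⟩ := Finset.mem_image.1 h <;>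
        have h5 : -x = -(a / 2) := congrArg Prod.fst hy
      · linarith [le_abs_self x, (z0 x hx).1]
      · linarith [le_abs_self x, (z1 x hx).1]
  have hZp : ∀ z ∈ Z, (-(a / 2) ≤ z.1 ∧ z.1 ≤ a / 4) ∧ (0 ≤ z.2 ∧ z.2 ≤ 1 / (2 * a)) ∧
      H28Zak.zak (herm n) a z.2 (-z.1) = 0 := fun z hz => by
    rcases Finset.mem_insert.1 hz with rfl | h
    · refine ⟨⟨le_rfl, by simp only; linarith⟩, ?_, by simpa using z2⟩
      rcases hω with rfl | rfl
      · exact ⟨le_rfl, hq.le⟩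
      · exact ⟨hq.le, le_rfl⟩
    · rcases Finset.mem_union.1 h with h | h <;> obtain ⟨x, hx, rfl⟩ := Finset.mem_image.1 h
      · have := abs_le.1 (z0 x hx).1
        exact ⟨⟨by simp only; linarith, by simp only; linarith⟩, ⟨le_rfl, hq.le⟩,
          by simpa using (z0 x hx).2⟩
      · have := abs_le.1 (z1 x hx).1
        exact ⟨⟨by simp only; linarith, by simp only; linarith⟩, ⟨hq.le, le_rfl⟩,
          by simpa using (z1 x hx).2⟩
  have gap1 : ∀ z ∈ Z, ∀ z' ∈ Z, ∀ k : ℤ, |z.1 - z'.1 + k * a| < a / 4 → k = 0 := by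
    intro z hz z' hz' k h
    refine int_zero (lt_of_mul_lt_mul_right (a := a) ?_ ha0.le)
    rw [← abs_of_pos ha0, ← abs_mul, abs_of_pos ha0, abs_lt]
    have := abs_lt.1 h
    constructor <;> linarith [(hZp z hz).1.1, (hZp z hz).1.2, (hZp z' hz').1.1, (hZp z' hz').1.2]
  have gap2 : ∀ z ∈ Z, ∀ z' ∈ Z, ∀ m : ℤ, |z.2 - z'.2 + m / a| < 1 / (2 * a) → m = 0 := by
    intro z hz z' hz' m h
    refine int_zero ((div_lt_div_iff_of_pos_right ha0).1 ?_)
    rw [← abs_of_pos ha0, ← abs_div, abs_of_pos ha0, abs_lt]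
    have := abs_lt.1 h
    have e2 : 1 / a = 2 * (1 / (2 * a)) := by field_simp
    constructor <;> linarith [(hZp z hz).2.1.1, (hZp z hz).2.1.2, (hZp z' hz').2.1.1,
      (hZp z' hz').2.1.2]
  refine ⟨a, ha0, Z, hcard, by omega, fun z hz z' hz' k m h => ?_, ?_, ?_⟩
  · have h1 : z.1 = z'.1 + k * a := congrArg Prod.fst h
    have h2 : z.2 = z'.2 + m / a := congrArg Prod.snd h
    have k0 := gap1 z' hz' z hz k (by rw [h1]; simpa using ha0)
    have m0 := gap2 z' hz' z hz m (by rw [h2]; simpa using ha0)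
    rw [h, k0, m0]; simp
  · have hev2 : ∀ᶠ δ in 𝓝[>] (0:ℝ), ∀ p ∈ Z ×ˢ Z, p.1 ≠ p.2 → δ ≤ dist p.1 p.2 := by
      refine (eventually_all_finset _).2 fun p _ => ?_
      by_cases hp : p.1 = p.2
      · simp [hp]
      · filter_upwards [Ioo_mem_nhdsGT (dist_pos.2 hp)] with δ hδ _ using hδ.2.le
    obtain ⟨δ, ⟨d1, d2⟩, d3⟩ := ((hev2.and (Ioo_mem_nhdsGT (show 0 < a / 4 by positivity))).and
      (Ioo_mem_nhdsGT hq)).exists
    refine ⟨δ, d2.1, ?_⟩
    rintro _ ⟨z, hz, k, m, rfl⟩ _ ⟨z', hz', k', m', rfl⟩ hne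
    by_contra hlt
    rw [not_le, Prod.dist_eq, max_lt_iff, Real.dist_eq, Real.dist_eq] at hlt
    have k0 := gap1 z hz z' hz' (k - k') (by
      refine lt_of_eq_of_lt ?_ (hlt.1.trans d2.2); congr 1; push_cast; ring)
    have m0 := gap2 z hz z' hz' (m - m') (by
      refine lt_of_eq_of_lt ?_ (hlt.2.trans d3.2); congr 1; push_cast; ring)
    obtain rfl : k = k' := by omega
    obtain rfl : m = m' := by omega
    have := d1 (z, z') (Finset.mem_product.2 ⟨hz, hz'⟩) (fun h : z = z' => hne (by rw [h]))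
    rw [Prod.dist_eq, Real.dist_eq, Real.dist_eq] at this
    simp only [add_sub_add_right_eq_sub] at hlt
    exact absurd this (not_le.2 (max_lt hlt.1 hlt.2))
  · rintro ⟨A, B, hA, -, hF⟩
    obtain ⟨f, hf, hlt⟩ := H28Zak.nonframe hh hD hd' ha Z (fun z hz => ⟨abs_le.2
      ⟨(hZp z hz).1.1, by linarith [(hZp z hz).1.2]⟩, (hZp z hz).2.2⟩) hA
    refine absurd ((hF f hf).1.trans ?_) (not_le.2 hlt)
    have hsurj : Function.Surjective fun q : Z × ℤ × ℤ =>
        (⟨(q.1.1.1 + q.2.1 * a, q.1.1.2 + q.2.2 / a), q.1.1, q.1.2, q.2.1, q.2.2, rfl⟩ :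
          conf a Z) := by
      rintro ⟨_, z, hz, k, m, rfl⟩
      exact ⟨(⟨z, hz⟩, k, m), rfl⟩
    refine (ENNReal.tsum_le_tsum_comp_of_surjective hsurj _).trans (le_of_eq ?_)
    refine tsum_congr fun q => ?_
    congr 3
    refine integral_congr_ae (Eventually.of_forall fun t => ?_)
    simp only [map_mul, Complex.conj_ofReal, ← Complex.exp_conj, Complex.conj_I, map_ofNat,
      H28Zak.ph]
    congr 3
    push_cast; ring

end Pool.Agent.Results.MP_bef260_an.Yes
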